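import Mathlib
import Pool.Agent.H68R2.BP.Props2
import Pool.Agent.H495R2.KZ.WLim

/-!
Sakai's linear Radon-Nikodym theorem (task T_rn).
-/

open scoped ComplexOrder InnerProductSpace ComplexConjugate Topology
open Finset Filter

noncomputable section

namespace H68R2.BP

open H759R2.Kad H744R2.KZ

namespace TRnaux

variable {H : Type} [NormedAddCommGroup H] [InnerProductSpace ℂ H] [CompleteSpace H]

/-- the adjoint moves across -/
theorem adj (a : H →L[ℂ] H) (x y : H) : ⟪x, a y⟫_ℂ = ⟪star a x, y⟫_ℂ := by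
  rw [ContinuousLinearMap.star_eq_adjoint, ContinuousLinearMap.adjoint_inner_left]

/-- positivity of commuting products -/
theorem lemP (y b : H →L[ℂ] H) (hy : star y = y) (hby : b * y = y * b)
    (hb : ∀ x, 0 ≤ (⟪x, b x⟫_ℂ).re) (f : ℝ → ℝ) (hf : Continuous f) (h0 : ∀ t, 0 ≤ f t) (Ω : H) :
    0 ≤ (⟪Ω, cfc f y (b Ω)⟫_ℂ).re := by
  have hsa : IsSelfAdjoint y := hy
  set s : H →L[ℂ] H := cfc (fun t => Real.sqrt (f t)) y with hs
  have hss : IsSelfAdjoint s := cfc_predicate _ _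
  have e1 : cfc f y = s * s := by
    rw [hs, ← cfc_mul (fun t => Real.sqrt (f t)) (fun t => Real.sqrt (f t)) y
      (by fun_prop) (by fun_prop)]
    congr 1
    ext t
    rw [Real.mul_self_sqrt (h0 t)]
  have hc : Commute s b := by
    have hc0 : Commute y b := hby.symm
    exact Commute.cfc_real hc0 _
  have e2 : ⟪Ω, cfc f y (b Ω)⟫_ℂ = ⟪s Ω, b (s Ω)⟫_ℂ := by
    rw [e1, mul_apply_eq_comp, adj s, hss.star_eq]
    have e3 : s (b Ω) = b (s Ω) := by
      have := congrArg (fun T : H →L[ℂ] H => T Ω) hc.eq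
      simpa using this
    rw [e3]
  rw [e2]
  exact hb _

theorem re_inner_symm (u v : H) : (⟪u, v⟫_ℂ).re = (⟪v, u⟫_ℂ).re := by
  rw [← inner_conj_symm, Complex.conj_re]

theorem re_smul (u v : H) (t : ℝ) : (⟪u, t • v⟫_ℂ).re = t * (⟪u, v⟫_ℂ).re := by
  have : (t • v : H) = (t : ℂ) • v := by simp
  rw [this, inner_smul_right]
  simp

/-- the core inequality -/
theorem core (M N : Set (H →L[ℂ] H)) (Ω : H) (hC : CS M N Ω) (a' : H →L[ℂ] H) (ha : a' ∈ N)
    (h0 : ∀ x, 0 ≤ (⟪a' x, x⟫_ℂ).re) (h1 : ∀ x, (⟪a' x, x⟫_ℂ).re ≤ ‖x‖ ^ 2) (lam : ℂ)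
    (hl : 0 < lam.re) (y : H →L[ℂ] H) (hyM : y ∈ M) (hy : star y = y) (ε : ℝ) (hε : 0 < ε) :
    ∃ x ∈ M, star x = x ∧ ‖x‖ ≤ (2 * lam.re)⁻¹ ∧
      (⟪Ω, y (a' Ω)⟫_ℂ).re ≤ 2 * (lam * ⟪Ω, x (y Ω)⟫_ℂ).re + ε := by
  have hsa : IsSelfAdjoint y := hy
  set n : ℝ := (‖Ω‖ ^ 2 + 1) / ε with hn
  have hnpos : 0 < n := by positivity
  have hn1 : ‖Ω‖ ^ 2 * n⁻¹ ≤ ε := by
    rw [hn, inv_div, ← mul_div_assoc, div_le_iff₀ (by positivity)]
    nlinarith [sq_nonneg ‖Ω‖]
  set c : ℝ := (2 * lam.re)⁻¹ with hc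
  have hcpos : 0 < c := by positivity
  set g : ℝ → ℝ := fun t => min 1 (max 0 (n * t)) with hg
  have hgc : Continuous g := by rw [hg]; fun_prop
  have hg0 : ∀ t, 0 ≤ g t := fun t => le_min zero_le_one (le_max_left _ _)
  have hg1 : ∀ t, g t ≤ 1 := fun t => min_le_left _ _
  have hcy : ∀ b ∈ N, b * y = y * b := by
    intro b hb
    rw [hC.cN] at hb
    exact hb y hyM
  have hX : ∀ b ∈ N, b * cfc g y = cfc g y * b := by
    intro b hb
    have h2 : Commute y b := (hcy b hb).symm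
    exact ((Commute.cfc_real h2 g).eq).symm
  have hXs : star (cfc g y) = cfc g y := by
    have h3 : IsSelfAdjoint (cfc g y) := cfc_predicate _ _
    exact h3
  refine ⟨(c : ℂ) • cfc g y, ?_, ?_, ?_, ?_⟩
  · rw [hC.cM]
    intro b hb
    rw [smul_mul_assoc, mul_smul_comm, hX b hb]
  · rw [star_smul, hXs]
    simp
  · rw [norm_smul]
    have h4 : ‖cfc g y‖ ≤ 1 := norm_cfc_le zero_le_one fun t _ => by
      rw [Real.norm_eq_abs, abs_of_nonneg (hg0 t)]
      exact hg1 t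
    have h5 : ‖(c : ℂ)‖ = c := by simp [abs_of_pos hcpos]
    rw [h5]
    nlinarith
  · -- the value
    set Z : H →L[ℂ] H := cfc (fun t => g t * t) y with hZ
    have hZs : IsSelfAdjoint Z := cfc_predicate _ _
    have hgi : Continuous fun t : ℝ => g t * t := hgc.mul continuous_id
    have hZe : cfc g y * y = Z := by
      conv_lhs => rw [← cfc_id ℝ y hsa, cfc_id ℝ y hsa]
      nth_rewrite 2 [← cfc_id' ℝ y hsa]
      rw [hZ, ← cfc_mul g (fun t => t) y (hgc.continuousOn) (by fun_prop)]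
    have e1 : ((c : ℂ) • cfc g y) (y Ω) = (c : ℂ) • Z Ω := by
      rw [← hZe]
      rfl
    have hreal : (⟪Ω, Z Ω⟫_ℂ).im = 0 := by
      have h6 : ⟪Ω, Z Ω⟫_ℂ = ⟪Z Ω, Ω⟫_ℂ := by rw [adj Z, hZs.star_eq]
      have h7 : conj ⟪Ω, Z Ω⟫_ℂ = ⟪Ω, Z Ω⟫_ℂ := by rw [inner_conj_symm, ← h6]
      exact Complex.conj_eq_iff_im.1 h7
    have e2 : 2 * (lam * ⟪Ω, ((c : ℂ) • cfc g y) (y Ω)⟫_ℂ).re = (⟪Ω, Z Ω⟫_ℂ).re := by
      rw [e1, inner_smul_right]
      simp only [Complex.mul_re, Complex.mul_im, Complex.ofReal_re, Complex.ofReal_im, hreal]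
      have : 2 * lam.re * c = 1 := by
        rw [hc]; field_simp
      linear_combination (⟪Ω, Z Ω⟫_ℂ).re * this
    rw [e2]
    -- the parts
    have hpc : Continuous fun t : ℝ => max t 0 := by fun_prop
    have hmc : Continuous fun t : ℝ => max (-t) 0 := by fun_prop
    have ey : y = cfc (fun t : ℝ => max t 0) y - cfc (fun t : ℝ => max (-t) 0) y := by
      rw [← cfc_sub (fun t : ℝ => max t 0) (fun t : ℝ => max (-t) 0) y hpc.continuousOn
        hmc.continuousOn]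
      conv_lhs => rw [← cfc_id' ℝ y hsa]
      congr 1
      ext t
      rcases le_total t 0 with h | h
      · rw [max_eq_right h, max_eq_left (by linarith)]; ring
      · rw [max_eq_left h, max_eq_right (by linarith)]; ring
    have q1 := lemP y a' hy (hcy a' ha) (fun x => by rw [re_inner_symm]; exact h0 x)
      (fun t : ℝ => max (-t) 0) hmc (fun t => le_max_right _ _) Ω
    have q2 := lemP y (1 - a') hy (by rw [sub_mul, mul_sub, hcy a' ha]; simp)
      (fun x => by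
        have : ⟪x, (1 - a') x⟫_ℂ = ⟪x, x⟫_ℂ - ⟪x, a' x⟫_ℂ := by
          rw [← inner_sub_right]; rfl
        rw [this, Complex.sub_re, re_inner_symm x (a' x)]
        have h8 : (⟪x, x⟫_ℂ).re = ‖x‖ ^ 2 := by
          have := inner_self_eq_norm_sq (𝕜 := ℂ) x
          simpa using this
        rw [h8]
        linarith [h1 x])
      (fun t : ℝ => max t 0) hpc (fun t => le_max_right _ _) Ω
    have hrc : Continuous fun t : ℝ => g t * t + n⁻¹ - max t 0 := by fun_prop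
    have q3 := lemP y 1 hy (by simp) (fun x => by
        have h8 : (⟪x, x⟫_ℂ).re = ‖x‖ ^ 2 := by
          have := inner_self_eq_norm_sq (𝕜 := ℂ) x
          simpa using this
        rw [one_apply_eq_self, h8]
        positivity)
      (fun t : ℝ => g t * t + n⁻¹ - max t 0) hrc (fun t => by
        have hni : 0 < n⁻¹ := by positivity
        rcases le_total t 0 with h | h
        · have hg' : g t = 0 := by
            rw [hg]
            show min 1 (max 0 (n * t)) = 0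
            rw [max_eq_left (by nlinarith)]
            exact min_eq_right zero_le_one
          rw [hg', max_eq_right h]
          linarith
        · rw [max_eq_left h]
          rcases le_total (n * t) 1 with h9 | h9
          · have : t ≤ n⁻¹ := by
              rw [← mul_one n⁻¹, ← inv_mul_cancel_left₀ hnpos.ne' t]
              exact mul_le_mul_of_nonneg_left h9 hni.le
            nlinarith [mul_nonneg (hg0 t) h]
          · have hg' : g t = 1 := by
              rw [hg]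
              show min 1 (max 0 (n * t)) = 1
              exact min_eq_left (h9.trans (le_max_right _ _))
            rw [hg']
            linarith) Ω
    have e3 : cfc (fun t : ℝ => g t * t + n⁻¹ - max t 0) y =
        Z + (n⁻¹ : ℝ) • (1 : H →L[ℂ] H) - cfc (fun t : ℝ => max t 0) y := by
      rw [cfc_sub (fun t : ℝ => g t * t + n⁻¹) (fun t : ℝ => max t 0) y (by fun_prop)
        hpc.continuousOn, cfc_add y (fun t : ℝ => g t * t) (fun _ => n⁻¹) hgi.continuousOn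
        (by fun_prop), cfc_const n⁻¹ y hsa, Algebra.algebraMap_eq_smul_one]
    rw [e3] at q3
    simp only [one_apply_eq_self, sub_apply,
      add_apply, smul_apply, map_sub, inner_sub_right,
      inner_add_right, Complex.sub_re, Complex.add_re] at q1 q2 q3
    have h10 : (⟪Ω, (n⁻¹ : ℝ) • Ω⟫_ℂ).re = n⁻¹ * ‖Ω‖ ^ 2 := by
      have h8 : (⟪Ω, Ω⟫_ℂ).re = ‖Ω‖ ^ 2 := by
        have := inner_self_eq_norm_sq (𝕜 := ℂ) Ω
        simpa using this
      rw [re_smul Ω Ω n⁻¹, h8]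
    rw [h10] at q3
    have e4 : (⟪Ω, y (a' Ω)⟫_ℂ).re = (⟪Ω, cfc (fun t : ℝ => max t 0) y (a' Ω)⟫_ℂ).re -
        (⟪Ω, cfc (fun t : ℝ => max (-t) 0) y (a' Ω)⟫_ℂ).re := by
      conv_lhs => rw [ey]
      rw [sub_apply, inner_sub_right, Complex.sub_re]
    rw [e4]
    linarith

/-- the finite step -/
theorem finstep (M N : Set (H →L[ℂ] H)) (Ω : H) (hC : CS M N Ω) (a' : H →L[ℂ] H) (ha : a' ∈ N)
    (h0 : ∀ x, 0 ≤ (⟪a' x, x⟫_ℂ).re) (h1 : ∀ x, (⟪a' x, x⟫_ℂ).re ≤ ‖x‖ ^ 2) (lam : ℂ)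
    (hl : 0 < lam.re) (F : Finset (H →L[ℂ] H)) (hF : ∀ y ∈ F, y ∈ M ∧ star y = y) (δ : ℝ)
    (hδ : 0 < δ) :
    ∃ x ∈ M, star x = x ∧ ‖x‖ ≤ (2 * lam.re)⁻¹ ∧
      ∀ y ∈ F, |(⟪Ω, y (a' Ω)⟫_ℂ).re - 2 * (lam * ⟪Ω, x (y Ω)⟫_ℂ).re| < δ := by
  classical
  have Madd : ∀ x ∈ M, ∀ y ∈ M, x + y ∈ M := by
    intro x hx y hy
    rw [hC.cM] at hx hy ⊢
    intro b hb
    rw [add_mul, mul_add, hx b hb, hy b hb]
  have Msmul : ∀ (c : ℂ), ∀ x ∈ M, c • x ∈ M := by
    intro c x hx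
    rw [hC.cM] at hx ⊢
    intro b hb
    rw [smul_mul_assoc, mul_smul_comm, hx b hb]
  have Mzero : (0 : H →L[ℂ] H) ∈ M := by
    rw [hC.cM]
    intro b _
    rw [zero_mul, mul_zero]
  set D : Set (H →L[ℂ] H) := {x | x ∈ M ∧ star x = x ∧ ‖x‖ ≤ (2 * lam.re)⁻¹} with hD
  let Φ : (H →L[ℂ] H) →ₗ[ℝ] (F → ℝ) :=
    { toFun := fun x j => 2 * (lam * ⟪Ω, x ((j : H →L[ℂ] H) Ω)⟫_ℂ).re
      map_add' := fun x x' => by
        ext j
        simp only [add_apply, inner_add_right, mul_add, Complex.add_re, Pi.add_apply]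
      map_smul' := fun r x => by
        ext j
        have e : ⟪Ω, (r • x) ((j : H →L[ℂ] H) Ω)⟫_ℂ = (r : ℂ) * ⟪Ω, x ((j : H →L[ℂ] H) Ω)⟫_ℂ := by
          have : (r • x) ((j : H →L[ℂ] H) Ω) = (r : ℂ) • x ((j : H →L[ℂ] H) Ω) := by simp
          rw [this, inner_smul_right]
        simp only [e, RingHom.id_apply, Pi.smul_apply, smul_eq_mul]
        rw [show lam * ((r : ℂ) * ⟪Ω, x ((j : H →L[ℂ] H) Ω)⟫_ℂ) =
          (r : ℂ) * (lam * ⟪Ω, x ((j : H →L[ℂ] H) Ω)⟫_ℂ) by ring, Complex.re_ofReal_mul]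
        ring }
  have hΦ : ∀ x j, Φ x j = 2 * (lam * ⟪Ω, x ((j : H →L[ℂ] H) Ω)⟫_ℂ).re := fun _ _ => rfl
  have hconv : Convex ℝ D := by
    intro x hx y hy a b ha0 hb0 hab
    refine ⟨?_, ?_, ?_⟩
    · have e1 : a • x = (a : ℂ) • x := by
        ext v; simp
      have e2 : b • y = (b : ℂ) • y := by
        ext v; simp
      rw [e1, e2]
      exact Madd _ (Msmul _ _ hx.1) _ (Msmul _ _ hy.1)
    · rw [star_add, star_smul, star_smul, hx.2.1, hy.2.1]
      simp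
    · calc ‖a • x + b • y‖ ≤ ‖a • x‖ + ‖b • y‖ := norm_add_le _ _
        _ = a * ‖x‖ + b * ‖y‖ := by
            rw [norm_smul, norm_smul, Real.norm_eq_abs, Real.norm_eq_abs, abs_of_nonneg ha0,
              abs_of_nonneg hb0]
        _ ≤ a * (2 * lam.re)⁻¹ + b * (2 * lam.re)⁻¹ :=
            add_le_add (mul_le_mul_of_nonneg_left hx.2.2 ha0)
              (mul_le_mul_of_nonneg_left hy.2.2 hb0)
        _ = (2 * lam.re)⁻¹ := by rw [← add_mul, hab, one_mul]
  let ψ : F → ℝ := fun j => (⟪Ω, (j : H →L[ℂ] H) (a' Ω)⟫_ℂ).re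
  have hmem : ψ ∈ closure (Φ '' D) := by
    by_contra hn
    obtain ⟨f, u, hf1, hf2⟩ := geometric_hahn_banach_closed_point
      ((hconv.linear_image Φ).closure) isClosed_closure hn
    set t : F → ℝ := fun j => f (Pi.single j 1) with ht
    have hfe : ∀ v : F → ℝ, f v = ∑ j, v j * t j := by
      intro v
      have e := LinearMap.pi_apply_eq_sum_univ (f : (F → ℝ) →ₗ[ℝ] ℝ) v
      have e0 : f v = (f : (F → ℝ) →ₗ[ℝ] ℝ) v := rfl
      rw [e0, e]
      refine Finset.sum_congr rfl fun j _ => ?_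
      rw [smul_eq_mul, ht]
      congr 1
      show f _ = f _
      congr 1
      ext i
      simp [Pi.single_apply, eq_comm]
    set y : H →L[ℂ] H := ∑ j : F, (t j : ℂ) • (j : H →L[ℂ] H) with hy
    have hyM : y ∈ M := by
      rw [hy]
      refine Finset.sum_induction _ (fun z => z ∈ M) (fun a b ha hb => Madd a ha b hb) Mzero
        fun j _ => Msmul _ _ (hF j j.2).1
    have hys : star y = y := by
      rw [hy, star_sum]
      refine Finset.sum_congr rfl fun j _ => ?_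
      rw [star_smul, (hF j j.2).2]
      simp
    have hyv : ∀ v : H, y v = ∑ j : F, (t j : ℂ) • (j : H →L[ℂ] H) v := by
      intro v
      rw [hy, _root_.sum_apply]
      rfl
    have hfΦ : ∀ x, f (Φ x) = 2 * (lam * ⟪Ω, x (y Ω)⟫_ℂ).re := by
      intro x
      rw [hfe, hyv, map_sum, inner_sum, Finset.mul_sum, Complex.re_sum, Finset.mul_sum]
      refine Finset.sum_congr rfl fun j _ => ?_
      rw [hΦ, map_smul, inner_smul_right,
        show lam * ((t j : ℂ) * ⟪Ω, x ((j : H →L[ℂ] H) Ω)⟫_ℂ) =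
          (t j : ℂ) * (lam * ⟪Ω, x ((j : H →L[ℂ] H) Ω)⟫_ℂ) by ring, Complex.re_ofReal_mul]
      ring
    have hfψ : f ψ = (⟪Ω, y (a' Ω)⟫_ℂ).re := by
      rw [hfe, hyv, inner_sum, Complex.re_sum]
      refine Finset.sum_congr rfl fun j _ => ?_
      rw [inner_smul_right, Complex.re_ofReal_mul]
      ring
    obtain ⟨x, hxM, hxs, hxn, hx⟩ := core M N Ω hC a' ha h0 h1 lam hl y hyM hys (f ψ - u)
      (by linarith)
    have h3 := hf1 (Φ x) (subset_closure ⟨x, ⟨hxM, hxs, hxn⟩, rfl⟩)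
    rw [hfΦ] at h3
    rw [← hfψ] at hx
    linarith
  obtain ⟨v, ⟨x, hx, rfl⟩, hd⟩ := Metric.mem_closure_iff.1 hmem δ hδ
  refine ⟨x, hx.1, hx.2.1, hx.2.2, fun y hy => ?_⟩
  have h4 := (dist_pi_lt_iff hδ).1 hd ⟨y, hy⟩
  rw [Real.dist_eq, hΦ] at h4
  exact h4

end TRnaux

theorem prove_T_rn : T_rn := by
  classical
  intro H _ _ _ M N Ω hC a' ha has h0 h1 lam hl
  have Madd : ∀ x ∈ M, ∀ y ∈ M, x + y ∈ M := by
    intro x hx y hy
    rw [hC.cM] at hx hy ⊢
    intro b hb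
    rw [add_mul, mul_add, hx b hb, hy b hb]
  have Msmul : ∀ (c : ℂ), ∀ x ∈ M, c • x ∈ M := by
    intro c x hx
    rw [hC.cM] at hx ⊢
    intro b hb
    rw [smul_mul_assoc, mul_smul_comm, hx b hb]
  have hcomm : ∀ y ∈ M, a' * y = y * a' := by
    intro y hy
    rw [hC.cN] at ha
    exact ha y hy
  -- choice of approximate solutions
  have hch : ∀ i : Finset (H →L[ℂ] H) × ℕ, ∃ x ∈ M, star x = x ∧ ‖x‖ ≤ (2 * lam.re)⁻¹ ∧
      ∀ y ∈ i.1, y ∈ M → star y = y →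
        |(⟪Ω, y (a' Ω)⟫_ℂ).re - 2 * (lam * ⟪Ω, x (y Ω)⟫_ℂ).re| < 1 / ((i.2 : ℝ) + 1) := by
    intro i
    obtain ⟨x, hx1, hx2, hx3, hx4⟩ := TRnaux.finstep M N Ω hC a' ha h0 h1 lam hl
      (i.1.filter fun y => y ∈ M ∧ star y = y) (fun y hy => (Finset.mem_filter.1 hy).2)
      (1 / ((i.2 : ℝ) + 1)) (by positivity)
    exact ⟨x, hx1, hx2, hx3, fun y hy hyM hys => hx4 y (Finset.mem_filter.2 ⟨hy, hyM, hys⟩)⟩
  choose X hXM hXs hXn hXa using hch
  set 𝒰 : Ultrafilter (Finset (H →L[ℂ] H) × ℕ) := Ultrafilter.of atTop with h𝒰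
  have hle : (𝒰 : Filter (Finset (H →L[ℂ] H) × ℕ)) ≤ atTop := Ultrafilter.of_le _
  obtain ⟨S, -, hS⟩ := prove_W_lim H (Finset (H →L[ℂ] H) × ℕ) 𝒰 X _ hXn
  have uniq : ∀ {f : Finset (H →L[ℂ] H) × ℕ → ℂ} {a b : ℂ}, Tendsto f 𝒰 (𝓝 a) →
      Tendsto f 𝒰 (𝓝 b) → a = b := fun h1 h2 => tendsto_nhds_unique h1 h2
  have hSM : S ∈ M := by
    rw [hC.cM]
    intro b hb
    refine ContinuousLinearMap.ext fun v => ext_inner_left ℂ fun u => ?_
    have t1 := hS u (b v)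
    have t2 := hS (star b u) v
    have e : ∀ i, ⟪u, X i (b v)⟫_ℂ = ⟪star b u, X i v⟫_ℂ := by
      intro i
      have h2 := hXM i
      rw [hC.cM] at h2
      have h3 := congrArg (fun T : H →L[ℂ] H => T v) (h2 b hb)
      simp only [mul_apply_eq_comp] at h3
      rw [h3, TRnaux.adj b]
    have t3 := uniq t1 (t2.congr fun i => (e i).symm)
    simp only [mul_apply_eq_comp]
    rw [TRnaux.adj b]
    exact t3
  have hSs : star S = S := by
    refine ContinuousLinearMap.ext fun v => ext_inner_left ℂ fun u => ?_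
    have t1 := hS u v
    have t2 := (Complex.continuous_conj.tendsto _).comp (hS v u)
    have e : ∀ i, (fun z => conj z) ⟪v, X i u⟫_ℂ = ⟪u, X i v⟫_ℂ := by
      intro i
      show conj ⟪v, X i u⟫_ℂ = _
      rw [inner_conj_symm, TRnaux.adj (X i), hXs i]
    have t3 := uniq t1 (t2.congr fun i => e i)
    rw [TRnaux.adj (star S), star_star, t3]
    show _ = conj ⟪v, S u⟫_ℂ
    rw [inner_conj_symm]
  refine ⟨S, hSM, hSs, ?_⟩
  -- self-adjoint elements
  have hsa : ∀ y ∈ M, star y = y → ⟪Ω, y (a' Ω)⟫_ℂ =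
      lam * ⟪Ω, S (y Ω)⟫_ℂ + conj lam * ⟪Ω, y (S Ω)⟫_ℂ := by
    intro y hyM hys
    have t1 : Tendsto (fun i => (⟪Ω, y (a' Ω)⟫_ℂ).re - 2 * (lam * ⟪Ω, X i (y Ω)⟫_ℂ).re) 𝒰
        (𝓝 ((⟪Ω, y (a' Ω)⟫_ℂ).re - 2 * (lam * ⟪Ω, S (y Ω)⟫_ℂ).re)) := by
      have t2 := (hS Ω (y Ω)).const_mul lam
      have t3 := (Complex.continuous_re.tendsto _).comp t2
      exact (t3.const_mul 2).const_sub _
    have t4 : Tendsto (fun i => (⟪Ω, y (a' Ω)⟫_ℂ).re - 2 * (lam * ⟪Ω, X i (y Ω)⟫_ℂ).re) 𝒰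
        (𝓝 0) := by
      have t5 : Tendsto (fun i : Finset (H →L[ℂ] H) × ℕ => 1 / ((i.2 : ℝ) + 1)) 𝒰 (𝓝 0) := by
        have t6 : Tendsto (fun i : Finset (H →L[ℂ] H) × ℕ => i.2) 𝒰 atTop := by
          refine Tendsto.mono_left ?_ hle
          rw [← Filter.prod_atTop_atTop_eq]
          exact tendsto_snd
        exact tendsto_one_div_add_atTop_nhds_zero_nat.comp t6
      have t7 : ∀ᶠ i in (𝒰 : Filter (Finset (H →L[ℂ] H) × ℕ)), y ∈ i.1 := by
        refine hle ?_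
        filter_upwards [Filter.eventually_ge_atTop (({y}, 0) : Finset (H →L[ℂ] H) × ℕ)] with i hi
        exact hi.1 (Finset.mem_singleton_self y)
      refine squeeze_zero_norm' ?_ t5
      filter_upwards [t7] with i hi
      rw [Real.norm_eq_abs]
      exact (hXa i y hi hyM hys).le
    have t8 := tendsto_nhds_unique t1 t4
    have e1 : ⟪Ω, y (S Ω)⟫_ℂ = conj ⟪Ω, S (y Ω)⟫_ℂ := by
      rw [inner_conj_symm, TRnaux.adj y, hys]
      rw [TRnaux.adj S, hSs]
    have e2 : conj ⟪Ω, y (a' Ω)⟫_ℂ = ⟪Ω, y (a' Ω)⟫_ℂ := by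
      have h3 := congrArg (fun T : H →L[ℂ] H => T Ω) (hcomm y hyM)
      simp only [mul_apply_eq_comp] at h3
      rw [inner_conj_symm]
      nth_rewrite 1 [← h3]
      have h5 : ⟪a' (y Ω), Ω⟫_ℂ = ⟪y Ω, a' Ω⟫_ℂ := by
        rw [TRnaux.adj a', has]
      rw [h5, TRnaux.adj y, hys]
    have e3 : (⟪Ω, y (a' Ω)⟫_ℂ).im = 0 := Complex.conj_eq_iff_im.1 e2
    rw [e1]
    apply Complex.ext
    · have : (lam * ⟪Ω, S (y Ω)⟫_ℂ + conj lam * conj ⟪Ω, S (y Ω)⟫_ℂ).re =
          2 * (lam * ⟪Ω, S (y Ω)⟫_ℂ).re := by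
        rw [← map_mul, Complex.add_re, Complex.conj_re]; ring
      rw [this]
      linarith
    · have : (lam * ⟪Ω, S (y Ω)⟫_ℂ + conj lam * conj ⟪Ω, S (y Ω)⟫_ℂ).im = 0 := by
        rw [← map_mul, Complex.add_im, Complex.conj_im]; ring
      rw [this, e3]
  intro y hy
  set y1 : H →L[ℂ] H := (1 / 2 : ℂ) • (y + star y) with hy1
  set y2 : H →L[ℂ] H := (-Complex.I / 2 : ℂ) • (y + (-1 : ℂ) • star y) with hy2
  have hy1M : y1 ∈ M := Msmul _ _ (Madd _ hy _ (hC.stM y hy))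
  have hy2M : y2 ∈ M := Msmul _ _ (Madd _ hy _ (Msmul _ _ (hC.stM y hy)))
  have hy1s : star y1 = y1 := by
    rw [hy1, star_smul, star_add, star_star, add_comm]
    congr 1
    simp
  have hy2s : star y2 = y2 := by
    rw [hy2, star_smul, star_add, star_smul, star_star, smul_add, smul_add, smul_smul, smul_smul,
      add_comm]
    have c1 : star (-Complex.I / 2 : ℂ) = Complex.I / 2 := by simp
    have c2 : star (-1 : ℂ) = -1 := by simp
    rw [c1, c2]
    congr 1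
    · congr 1
      ring
    · congr 1
      ring
  have hdec : y = y1 + Complex.I • y2 := by
    rw [hy1, hy2, smul_smul, smul_add, smul_add, smul_smul]
    have e1 : Complex.I * (-Complex.I / 2) = 1 / 2 := by
      have := Complex.I_mul_I
      linear_combination (-1 / 2 : ℂ) * this
    rw [e1]
    have e2 : (1 / 2 : ℂ) • y + (1 / 2 : ℂ) • star y +
        ((1 / 2 : ℂ) • y + (1 / 2 * -1 : ℂ) • star y) = y := by
      module
    exact e2.symm
  have hv : ∀ v, y v = y1 v + Complex.I • y2 v := by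
    intro v
    conv_lhs => rw [hdec]
    rfl
  rw [hv, hv, hv, map_add, map_smul]
  simp only [inner_add_right, inner_smul_right]
  rw [hsa y1 hy1M hy1s, hsa y2 hy2M hy2s]
  ring

end H68R2.BP
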